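import Pool.Agent.Work.MP_054302_co.Classify

/-!
Strict increase near the top of the range, by saturation.
-/

open Finset SimpleGraph Filter Nd4bc9c34

namespace Pool.Agent.Work.MP_054302_co.Z

variable {a b k l n : ℕ}

lemma card_bip (P : Fin a → Fin b → Bool) : #(bipG P).edgeFinset = cnt P := by
  classical
  have hne : ∀ (i : Fin a) (j : Fin b), Fin.castAdd b i ≠ Fin.natAdd a j := by
    intro i j h
    have := congrArg Fin.val h
    simp only [Fin.val_castAdd, Fin.val_natAdd] at this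
    omega
  rw [cnt_eq]
  symm
  refine card_bij (fun p _ => s(Fin.castAdd b p.1, Fin.natAdd a p.2)) ?_ ?_ ?_
  · intro p hp
    rw [mem_edgeFinset, mem_edgeSet, bipG, fromRel_adj]
    exact ⟨hne _ _, Or.inl ⟨p.1, p.2, (mem_filter.1 hp).2, rfl, rfl⟩⟩
  · intro p _ p' _ h
    rcases Sym2.eq_iff.1 h with ⟨h1, h2⟩ | ⟨h1, -⟩
    · exact Prod.ext (Fin.castAdd_injective _ _ h1) (Fin.natAdd_injective _ _ h2)
    · exact absurd h1 (hne _ _)
  · intro e he
    induction e using Sym2.ind with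
    | h u v =>
      rw [mem_edgeFinset, mem_edgeSet, bipG, fromRel_adj] at he
      rcases he.2 with ⟨i, j, hij, rfl, rfl⟩ | ⟨i, j, hij, rfl, rfl⟩
      · exact ⟨(i, j), by simpa using hij, rfl⟩
      · exact ⟨(i, j), by simpa using hij, Sym2.eq_swap⟩

/-- A pattern with at least `l` entries bounds the minimum. -/
lemma min_le (P : Fin a → Fin b → Bool) (hk : a + b = k) (hl : l ≤ cnt P) :
    minExtremalNumber n k l ≤ (ex n P : ℕ∞) := by
  classical
  subst hk
  rw [cnt_eq] at hl
  obtain ⟨T, hT, hc⟩ := exists_subset_card_eq hl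
  let Q : Fin a → Fin b → Bool := fun i j => decide ((i, j) ∈ T)
  have h1 : cnt Q = l := by
    rw [cnt_eq, ← hc]
    congr 1
    ext p
    simp [Q]
  have h2 : Sub Q P := ⟨id, id, Function.injective_id, Function.injective_id, fun i j h => by
    have h3 : (i, j) ∈ T := by simpa [Q] using h
    exact (mem_filter.1 (hT h3)).2⟩
  have h3 : minExtremalNumber n (a + b) l ≤ (ex n Q : ℕ∞) := by
    refine iInf₂_le (f := fun (G : SimpleGraph (Fin (a + b))) (_ : G.edgeSet.ncard = l) =>
      (extremalNumber n G : ℕ∞)) (bipG Q) ?_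
    rw [← h1, ← card_bip, ← coe_edgeFinset, Set.ncard_coe_finset]
  exact h3.trans (by exact_mod_cast h2.ex_le n)

/-- Saturation: if `P` sits in `M` avoiding any given entry, its extremal number is smaller. -/
lemma sat_lt (P M : Fin a → Fin b → Bool) (hP : ∃ i j, P i j = true) (hn : a + b ≤ n)
    (h : ∀ y x, ∃ (σ : Fin a → Fin a) (τ : Fin b → Fin b), Function.Injective σ ∧
      Function.Injective τ ∧ ∀ i j, P i j = true →
        M (σ i) (τ j) = true ∧ ¬ (σ i = y ∧ τ j = x)) : ex n P < ex n M := by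
  classical
  obtain ⟨H, inst, hH, he⟩ := exists_extremal P hP n
  obtain ⟨u, v, huv, hna⟩ : ∃ u v : Fin n, u ≠ v ∧ ¬ H.Adj u v := by
    by_contra hcon
    push Not at hcon
    obtain ⟨f⟩ : Nonempty (Fin (a + b) ↪ Fin n) :=
      Function.Embedding.nonempty_of_card_le (by simp only [Fintype.card_fin]; omega)
    refine hH (has_iff.2 ⟨⟨⟨f, fun {x y} hxy => hcon _ _ (f.injective.ne hxy.ne)⟩, f.injective⟩⟩)
  have h1 : ¬ Has (H ⊔ edge u v) M := by
    rintro ⟨s, t, hs1, ht1, hst, hadj⟩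
    obtain ⟨y, x, hyx⟩ : ∃ y x, ∀ i j, s(s i, t j) = s(u, v) → i = y ∧ j = x := by
      by_cases hex : ∃ i j, s(s i, t j) = s(u, v)
      · obtain ⟨i, j, hij⟩ := hex
        refine ⟨i, j, fun i' j' h2 => ?_⟩
        rcases Sym2.eq_iff.1 (h2.trans hij.symm) with ⟨h3, h4⟩ | ⟨h3, -⟩
        · exact ⟨hs1 h3, ht1 h4⟩
        · exact absurd h3 (hst _ _)
      · obtain ⟨i, j, -⟩ := hP
        exact ⟨i, j, fun i' j' h2 => absurd ⟨i', j', h2⟩ hex⟩
    obtain ⟨σ, τ, hσ, hτ, hM⟩ := h y x
    refine hH ⟨s ∘ σ, t ∘ τ, hs1.comp hσ, ht1.comp hτ, fun _ _ => hst _ _, fun i j hij => ?_⟩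
    rcases (sup_adj _ _ _ _).1 (hadj (σ i) (τ j) (hM i j hij).1) with h2 | h2
    · exact h2
    · refine absurd (hyx _ _ ?_) (hM i j hij).2
      rw [edge_adj] at h2
      rcases h2.1 with ⟨h3, h4⟩ | ⟨h3, h4⟩ <;> rw [h3, h4]
      exact Sym2.eq_swap
  have h2 := card_edgeFinset_le_extremalNumber
    (show (bipG M).Free (H ⊔ edge u v) from fun hc => h1 (has_iff.2 hc))
  rw [Fintype.card_fin] at h2
  have h3 : ∀ (K : SimpleGraph (Fin n)) [DecidableRel K.Adj], H < K →
      #H.edgeFinset < #K.edgeFinset := fun K _ hK =>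
    card_lt_card (edgeFinset_ssubset_edgeFinset.2 hK)
  have h4 := h3 (H ⊔ edge u v) (by
    refine lt_of_le_of_ne le_sup_left fun h => hna ?_
    rw [h, sup_adj, edge_adj]
    exact Or.inr ⟨Or.inl ⟨rfl, rfl⟩, huv⟩)
  rw [← he]
  exact h4.trans_le h2

/-- The number of entries in the rows that meet column `u`. -/
def wt (M : Fin a → Fin b → Bool) (u : Fin b) : ℕ :=
  #(univ.filter fun p : Fin a × Fin b => M p.1 p.2 = true ∧ M p.1 u = true)

lemma exists_wt (M : Fin a → Fin b → Bool) (hb : 0 < b) : ∃ u, cnt M ^ 2 ≤ a * b * wt M u := by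
  obtain ⟨u, -, hu⟩ := exists_max_image (univ : Finset (Fin b)) (wt M) ⟨⟨0, hb⟩, mem_univ _⟩
  refine ⟨u, ?_⟩
  have h1 := sq_sum_le_card_mul_sum_sq (s := (univ : Finset (Fin a)))
    (f := fun i => ∑ j, if M i j = true then 1 else 0)
  have h2 : ∑ i, (∑ j, if M i j = true then 1 else 0) ^ 2 = ∑ v, wt M v := by
    simp only [wt, card_filter, Fintype.sum_prod_type]
    rw [sum_comm]
    refine sum_congr rfl fun i _ => ?_
    rw [sq, sum_mul_sum]
    refine sum_congr rfl fun v _ => sum_congr rfl fun j _ => ?_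
    cases M i v <;> cases M i j <;> rfl
  have h3 : ∑ v, wt M v ≤ ∑ _v : Fin b, wt M u := sum_le_sum fun v _ => hu v (mem_univ _)
  rw [sum_const, card_univ, Fintype.card_fin, smul_eq_mul] at h3
  rw [h2, card_univ, Fintype.card_fin] at h1
  rw [mul_assoc]
  exact h1.trans (Nat.mul_le_mul_left _ h3)

lemma exists_full (M : Fin a → Fin b → Bool) (h : a * b < cnt M + b) : ∃ u, wt M u = cnt M := by
  obtain ⟨u, hu⟩ : ∃ u, ∀ i, M i u = true := by
    by_contra hc
    push Not at hc
    choose g hg using hc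
    have h1 : #(univ : Finset (Fin b)) ≤
        #(univ.filter fun p : Fin a × Fin b => ¬ M p.1 p.2 = true) :=
      card_le_card_of_injOn (fun u => (g u, u)) (fun u _ => by simpa using hg u)
        fun u _ v _ huv => congrArg Prod.snd huv
    have h2 := card_filter_add_card_filter_not (s := (univ : Finset (Fin a × Fin b)))
      (fun p => M p.1 p.2 = true)
    rw [← cnt_eq, card_univ, Fintype.card_prod, Fintype.card_fin, Fintype.card_fin] at h2
    rw [card_univ, Fintype.card_fin] at h1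
    omega
  exact ⟨u, by simp only [wt, cnt_eq, hu, and_true]⟩

/-- A large subpattern of `M` that can avoid any given entry. -/
lemma exists_core (M : Fin a → Fin b → Bool) (ha : 0 < a) (u : Fin b) :
    ∃ (P : Fin a → Fin b → Bool) (c : ℕ), wt M u ≤ cnt P + c ∧ c ≤ a ∧
      c + cnt M ≤ a * b + 1 ∧
      ∀ y x, ∃ (σ : Fin a → Fin a) (τ : Fin b → Fin b), Function.Injective σ ∧
        Function.Injective τ ∧ ∀ i j, P i j = true →
          M (σ i) (τ j) = true ∧ ¬ (σ i = y ∧ τ j = x) := by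
  classical
  set F : Finset (Fin a × Fin b) := univ.filter fun p => ¬ M p.1 p.2 = true with hF
  have hFc : cnt M + #F = a * b := by
    rw [cnt_eq, hF, card_filter_add_card_filter_not]
    simp
  set S : Finset (Fin a) := F.image Prod.fst with hS
  have hfull : ∀ i, i ∉ S → ∀ j, M i j = true := fun i hi j => by
    by_contra hc
    exact hi (mem_image.2 ⟨(i, j), mem_filter.2 ⟨mem_univ _, hc⟩, rfl⟩)
  obtain ⟨y0, hy0⟩ : ∃ y0 : Fin a, ∀ y, y ∉ S → y0 ∉ S := by
    by_cases hex : ∃ y, y ∉ S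
    · obtain ⟨y, hy⟩ := hex
      exact ⟨y, fun _ _ => hy⟩
    · exact ⟨⟨0, ha⟩, fun y hy => absurd ⟨y, hy⟩ hex⟩
  set D : Finset (Fin a) := insert y0 S with hD
  let P : Fin a → Fin b → Bool := fun i j =>
    decide (M i j = true ∧ ¬ (j = u ∧ i ∈ D) ∧ M i u = true)
  have hP : ∀ i j, P i j = true ↔ M i j = true ∧ ¬ (j = u ∧ i ∈ D) ∧ M i u = true := fun i j => by
    simp only [P, decide_eq_true_eq]
  refine ⟨P, #D, ?_, (card_le_univ _).trans (by simp), ?_, fun y x => ?_⟩
  · have h1 : (univ.filter fun p : Fin a × Fin b => M p.1 p.2 = true ∧ M p.1 u = true) ⊆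
        (univ.filter fun p : Fin a × Fin b => P p.1 p.2 = true) ∪ D ×ˢ {u} := by
      intro p hp
      simp only [mem_union, mem_product, mem_singleton]
      by_cases h2 : p.2 = u ∧ p.1 ∈ D
      · exact Or.inr ⟨h2.2, h2.1⟩
      exact Or.inl (mem_filter.2 ⟨mem_univ _,
        (hP _ _).2 ⟨(mem_filter.1 hp).2.1, h2, (mem_filter.1 hp).2.2⟩⟩)
    have h2 := (card_le_card h1).trans (card_union_le _ _)
    rw [← cnt_eq, card_product, card_singleton, mul_one] at h2
    exact h2
  · have h1 : #D ≤ #S + 1 := card_insert_le _ _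
    have h2 : #S ≤ #F := card_image_le
    omega
  · have key : ∀ i j, P i j = true → M i (Equiv.swap u x j) = true := fun i j hij => by
      obtain ⟨h1, h2, h3⟩ := (hP i j).1 hij
      by_cases hj : j = u
      · exact hfull i (fun hi => h2 ⟨hj, mem_insert_of_mem hi⟩) _
      by_cases hx : j = x
      · rwa [hx, Equiv.swap_apply_right]
      · rwa [Equiv.swap_apply_of_ne_of_ne hj hx]
    have key2 : ∀ i j, P i j = true → Equiv.swap u x j = x → i ∉ D := fun i j hij hj hi => by
      rw [Equiv.swap_apply_eq_iff, Equiv.swap_apply_right] at hj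
      exact ((hP i j).1 hij).2.1 ⟨hj, hi⟩
    by_cases hy : y ∈ D
    · exact ⟨id, Equiv.swap u x, Function.injective_id, Equiv.injective _, fun i j hij =>
        ⟨key i j hij, fun hc => key2 i j hij hc.2 ((show i = y from hc.1) ▸ hy)⟩⟩
    · have hyS : y ∉ S := fun h => hy (mem_insert_of_mem h)
      refine ⟨Equiv.swap y0 y, Equiv.swap u x, Equiv.injective _, Equiv.injective _,
        fun i j hij => ⟨?_, fun hc => key2 i j hij hc.2 ?_⟩⟩
      · by_cases h1 : i = y0
        · rw [h1, Equiv.swap_apply_left]; exact hfull y hyS _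
        by_cases h2 : i = y
        · rw [h2, Equiv.swap_apply_right]; exact hfull y0 (hy0 y hyS) _
        · rw [Equiv.swap_apply_of_ne_of_ne h1 h2]; exact key i j hij
      · have h1 := hc.1
        rw [Equiv.swap_apply_eq_iff, Equiv.swap_apply_right] at h1
        rw [h1]
        exact mem_insert_self _ _

/-- Strict increase near the top of the range. -/
theorem top (k l l' i : ℕ) (hl : 1 ≤ l) (hll : l ≤ l') (hi : l' + i = k ^ 2 / 4)
    (h : (2 * i < k ∧ l + i + 1 ≤ l') ∨ (2 * l + k) * (l' + i) ≤ 2 * l' ^ 2) :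
    ∀ᶠ n : ℕ in atTop, minExtremalNumber n k l < minExtremalNumber n k l' := by
  have hk : 2 ≤ k := by
    by_contra hc
    have : k = 0 ∨ k = 1 := by omega
    rcases this with rfl | rfl <;> omega
  obtain ⟨a, b, hab, h1, h2⟩ : ∃ a b, a + 1 + (b + 1) = k ∧ a ≤ b ∧ b ≤ a + 1 :=
    ⟨k / 2 - 1, k - k / 2 - 1, by omega, by omega, by omega⟩
  have hk2 : k ^ 2 / 4 = (a + 1) * (b + 1) := by
    rcases (by omega : b = a ∨ b = a + 1) with rfl | rfl
    · rw [← hab, show (b + 1 + (b + 1)) ^ 2 = 4 * ((b + 1) * (b + 1)) by ring]; omega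
    · rw [← hab, show (a + 1 + (a + 1 + 1)) ^ 2 = 4 * ((a + 1) * (a + 1 + 1)) + 1 by ring]; omega
  filter_upwards [eventually_ge_atTop (8 * (a + 1)), eventually_gt_atTop (8 * (8 ^ (a + 1) * b)),
    eventually_ge_atTop k] with n n1 n2 n3
  have h3 : minExtremalNumber n k l ≤ (ex n (full (a + 1) (b + 1)) : ℕ∞) := by
    refine min_le _ hab ?_
    have : cnt (full (a + 1) (b + 1)) = (a + 1) * (b + 1) := by simp [cnt, full]
    omega
  have h4 : ∀ G : SimpleGraph (Fin k), G.edgeSet.ncard = l' →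
      ∃ x : ℕ, minExtremalNumber n k l ≤ x ∧ x < extremalNumber n G := fun G hG => by
    by_cases hc : G.Colorable 2
    · obtain ⟨c, d, hcd, h4, M, hM, h5⟩ := pattern G hc
      rw [hG] at h5
      have h6 := cnt_le M
      have h7 : c * d ≤ k ^ 2 / 4 := by
        rw [Nat.le_div_iff_mul_le (by norm_num), ← hcd]
        nlinarith [sq_nonneg ((c : ℤ) - d)]
      have hc0 : 0 < c := Nat.pos_of_ne_zero fun h0 => by
        subst h0
        omega
      obtain ⟨u, hu⟩ : ∃ u, ∀ x y, wt M u ≤ y + x → x ≤ c → x + cnt M ≤ c * d + 1 → l ≤ y := by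
        rcases h with h | h
        · obtain ⟨u, hu⟩ := exists_full M (by omega)
          exact ⟨u, fun x y p1 p2 p3 => by omega⟩
        · obtain ⟨u, hu⟩ := exists_wt M (by omega)
          refine ⟨u, fun x y p1 p2 p3 => ?_⟩
          by_contra h0
          have q1 : l' ^ 2 ≤ cnt M ^ 2 := Nat.pow_le_pow_left h5 2
          have q2 : c * d * wt M u ≤ (l' + i) * wt M u := Nat.mul_le_mul_right _ (by omega)
          have q3 : (l' + i) * (2 * wt M u) < (l' + i) * (2 * l + k) :=
            Nat.mul_lt_mul_of_pos_left (by omega) (by omega)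
          nlinarith
      obtain ⟨P, x, p1, p2, p3, p5⟩ := exists_core M hc0 u
      have h8 : l ≤ cnt P := hu x _ p1 p2 p3
      have h9 : ∃ i j, P i j = true := by
        rw [cnt_eq] at h8
        obtain ⟨p, hp⟩ := card_pos.1 (hl.trans h8)
        exact ⟨p.1, p.2, (mem_filter.1 hp).2⟩
      exact ⟨ex n P, min_le P hcd h8, (sat_lt P M h9 (by omega) p5).trans_le (hM.ex_le n)⟩
    · have h5 := kst a b n n1 n2
      have h6 := nonbip hc n
      exact ⟨_, h3, by omega⟩
  obtain ⟨y, hy⟩ := ENat.ne_top_iff_exists.1 (ne_top_of_le_ne_top (ENat.natCast_ne_top _) h3)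
  have h5 : ((y + 1 : ℕ) : ℕ∞) ≤ minExtremalNumber n k l' := le_iInf₂ fun G hG => by
    obtain ⟨x, hx1, hx2⟩ := h4 G hG
    rw [← hy] at hx1
    have : y ≤ x := by exact_mod_cast hx1
    exact_mod_cast (by omega : y + 1 ≤ extremalNumber n G)
  rw [← hy]
  exact lt_of_lt_of_le (by exact_mod_cast Nat.lt_succ_self y) h5

end Pool.Agent.Work.MP_054302_co.Z
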