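import Pool.Agent.Work.MP_054302_co.Y.Final
import Pool.Agent.Work.MP_054302_co.Z.Top

/-!
Strict increase over short steps on the whole range.
-/

open Filter Nd4bc9c34

namespace Pool.Agent.Work.MP_054302_co.Z

open Pool.Agent.Work.MP_054302_co.X

/-- Repeated densification, counting the edges between the added vertices. -/
theorem ok_iter2 (A B p w : ℕ) (hB : 1 ≤ B) (hA : B ≤ A) (hw : 1 ≤ w)
    (h : Ok (p * B + w) (p * A) ((B : ℝ) / A)) (m : ℕ) :
    Ok (p * B + w + 2 * m) (p * (A + m * B) + m * m) ((B : ℝ) / (A + m * B : ℕ)) := by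
  induction m with
  | zero => simpa using h
  | succ m ih =>
    have hBp : (0 : ℝ) < B := by exact_mod_cast hB
    have hle : B ≤ A + m * B := hA.trans (Nat.le_add_right _ _)
    have hleR : (B : ℝ) ≤ ((A + m * B : ℕ) : ℝ) := by exact_mod_cast hle
    have hD : (0 : ℝ) < ((A + m * B : ℕ) : ℝ) := lt_of_lt_of_le hBp hleR
    have h1 := ok_dens (div_pos hBp hD) ((div_le_one hD).2 hleR) ih
    have e1 : (B : ℝ) / ((A + m * B : ℕ) : ℝ) / (1 + (B : ℝ) / ((A + m * B : ℕ) : ℝ)) =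
        (B : ℝ) / ((A + (m + 1) * B : ℕ) : ℝ) := by
      have e2 : ((A + (m + 1) * B : ℕ) : ℝ) = ((A + m * B : ℕ) : ℝ) + B := by
        push_cast; ring
      rw [e2]
      generalize ((A + m * B : ℕ) : ℝ) = D at hD
      field_simp
    rw [e1] at h1
    have e3 : p * B + w + 2 * (m + 1) = p * B + w + 2 * m + 2 := by ring
    rw [e3]
    refine ok_mono ?_ h1
    have e4 : p * (A + (m + 1) * B) = p * (A + m * B) + p * B := by ring
    have e5 : (m + 1) * (m + 1) = m * m + 2 * m + 1 := by ring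
    omega

theorem ratios2 (B ρ j p k l : ℕ) (hρ : ρ < B) (hp : 1 ≤ p)
    (hk : p * B + ρ + 1 + 2 * j ≤ k) (hl : l ≤ p * (B + ρ + j * B) + j * j) :
    ∃ C : ℝ, ∀ n : ℕ, k ≤ n → ∃ x : ℕ, minExtremalNumber n k l ≤ x ∧
      (x : ℝ) ≤ C * (n : ℝ) ^ (2 - (B : ℝ) / (B + ρ + j * B : ℕ)) :=
  min_le_of_ok (ok_iter2 (B + ρ) B p (ρ + 1) (by omega) (by omega) (by omega)
    (Y.ok_one B ρ p (by omega) hρ hp) j) (by omega) hl

/-- The choice `B = ⌈k / sqrt l'⌉`, `A` largest with `A k < B (l' - 1)`. -/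
lemma choose_one (k l l' : ℕ) (hk : 1 ≤ k) (h1 : k ≤ l) (h2 : 4 * l' ≤ k ^ 2)
    (h3 : (l : ℝ) + 4 * Real.sqrt l' + ((l' : ℝ) / k) ^ 2 ≤ l') :
    ∃ B ρ j p : ℕ, ρ < B ∧ 1 ≤ p ∧ p * B + ρ + 1 + 2 * j ≤ k ∧
      l ≤ p * (B + ρ + j * B) + j * j ∧ 2 ≤ k ∧ 2 ≤ l' ∧
      ((k : ℝ) - 2) / ((l' : ℝ) - 1) < (B : ℝ) / (B + ρ + j * B : ℕ) := by
  have hkR : (1 : ℝ) ≤ k := by exact_mod_cast hk
  have hk0 : (0 : ℝ) < k := by linarith
  have hl : (k : ℝ) ≤ l := by exact_mod_cast h1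
  have h2R : 4 * (l' : ℝ) ≤ k * k := by rw [← sq]; exact_mod_cast h2
  have hw0 := Real.sqrt_nonneg (l' : ℝ)
  have hw2 : Real.sqrt l' * Real.sqrt l' = l' := Real.mul_self_sqrt (Nat.cast_nonneg _)
  have hr : (l' : ℝ) / k * k = l' := div_mul_cancel₀ _ hk0.ne'
  have hr0 : 0 ≤ (l' : ℝ) / k := by positivity
  generalize Real.sqrt l' = w at *
  generalize (l' : ℝ) / k = r at *
  have hrr := sq_nonneg r
  have w0 : 0 < w := by
    rcases hw0.eq_or_lt with h | h
    · rw [← h] at hw2 h3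
      linarith
    · exact h
  have w1 : 4 ≤ w := le_of_mul_le_mul_right (by linarith) w0
  have r1 : 4 * r ≤ k := le_of_mul_le_mul_right (by linarith) hk0
  have r2 : 2 * r ≤ w := by
    refine le_of_sq_le_sq ?_ hw0
    nlinarith
  obtain ⟨L, rfl⟩ : ∃ L, l' = L + 1 := ⟨l' - 1, by
    have : (0 : ℝ) < l' := by linarith
    have : 0 < l' := by exact_mod_cast this
    omega⟩
  rw [Nat.cast_succ] at h2R hw2 hr h3
  have hL : k < L := by
    have : (k : ℝ) < L := by linarith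
    exact_mod_cast this
  obtain ⟨B, b1, b2⟩ : ∃ B : ℕ, (k : ℝ) ≤ B * w ∧ (B : ℝ) * w ≤ k + w := by
    refine ⟨⌈(k : ℝ) / w⌉₊, (div_le_iff₀ w0).1 (Nat.le_ceil _), ?_⟩
    have := (Nat.ceil_lt_add_one (div_nonneg hk0.le hw0)).le
    have := mul_le_mul_of_nonneg_right this hw0
    rwa [add_mul, one_mul, div_mul_cancel₀ _ w0.ne'] at this
  have B1 : 1 ≤ B := by
    by_contra h
    have : B = 0 := by omega
    subst this
    simp only [Nat.cast_zero, zero_mul] at b1
    linarith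
  have BL : B * k < B * L := Nat.mul_lt_mul_of_pos_left hL B1
  have c1 := Nat.div_mul_le_self (B * L - 1) k
  have c2 := Nat.lt_div_mul_add (a := B * L - 1) hk
  generalize (B * L - 1) / k = A at c1 c2
  have A1 : B ≤ A := by
    by_contra h
    have := Nat.mul_le_mul_right k (show A + 1 ≤ B by omega)
    rw [add_mul, one_mul] at this
    omega
  obtain ⟨ρ, j, hρ, rfl⟩ : ∃ ρ j, ρ < B ∧ A = B + ρ + j * B := by
    refine ⟨A % B, A / B - 1, Nat.mod_lt A B1, ?_⟩
    have a1 := Nat.div_add_mod A B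
    have a2 := Nat.div_pos A1 B1
    obtain ⟨j, hj⟩ : ∃ j, A / B = j + 1 := ⟨A / B - 1, by omega⟩
    rw [hj] at a1 ⊢
    rw [mul_add, mul_one, mul_comm B j] at a1
    rw [Nat.add_sub_cancel]
    omega
  have t1 : (j + 1) * k < L := by
    have a1 : (B + ρ + j * B) * k = B * ((j + 1) * k) + ρ * k := by ring
    have : B * ((j + 1) * k) < B * L := by omega
    exact Nat.lt_of_mul_lt_mul_left this
  obtain ⟨x, hx⟩ : ∃ x : ℝ, x * k = L := ⟨L / k, div_mul_cancel₀ _ hk0.ne'⟩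
  have x1 : x ≤ r := le_of_mul_le_mul_right (by linarith) hk0
  have x2 : (j : ℝ) + 1 ≤ x := by
    have : ((j : ℝ) + 1) * k ≤ L := by exact_mod_cast t1.le
    exact le_of_mul_le_mul_right (by linarith) hk0
  have j0 : (0 : ℝ) ≤ j := Nat.cast_nonneg _
  have B0 : (0 : ℝ) ≤ B := Nat.cast_nonneg _
  have v1 : 2 * B + 2 * j ≤ k := by
    have a1 : 4 * (B : ℝ) ≤ k + 4 := by
      have : (4 * (B : ℝ) - 4) * w ≤ k * w := by nlinarith
      have := le_of_mul_le_mul_right this w0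
      linarith
    have : 2 * (B : ℝ) + 2 * j ≤ k := by linarith
    exact_mod_cast this
  have d1 := Nat.div_mul_le_self (k - (ρ + 1 + 2 * j)) B
  have d2 := Nat.lt_div_mul_add (a := k - (ρ + 1 + 2 * j)) B1
  generalize (k - (ρ + 1 + 2 * j)) / B = p at d1 d2
  have p1 : 1 ≤ p := by
    rcases p with _ | p
    · omega
    · omega
  refine ⟨B, ρ, j, p, hρ, p1, by omega, ?_, by omega, by omega, ?_⟩
  · generalize B + ρ + j * B = A at c1 c2
    have p0 : (0 : ℝ) ≤ p := Nat.cast_nonneg _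
    have f1 : (B : ℝ) * r ≤ w + r := by
      have : (B : ℝ) * r * w ≤ (w + r) * w := by nlinarith
      exact le_of_mul_le_mul_right this w0
    have f2 : (p : ℝ) ≤ w := by
      have a1 : (p : ℝ) * B ≤ k := by exact_mod_cast (by omega : p * B ≤ k)
      have a2 : (0 : ℝ) < B := by exact_mod_cast B1
      exact le_of_mul_le_mul_right (by linarith) a2
    have f3 : (k : ℝ) + 1 ≤ p * B + 2 * B + 2 * j := by
      exact_mod_cast (by omega : k + 1 ≤ p * B + 2 * B + 2 * j)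
    have f4 : (B : ℝ) * x ≤ A + 1 := by
      have a1 : (B : ℝ) * L ≤ A * k + k := by exact_mod_cast (by omega : B * L ≤ A * k + k)
      have : (B : ℝ) * x * k ≤ (A + 1) * k := by rw [mul_assoc, hx]; linarith
      exact le_of_mul_le_mul_right this hk0
    have f5 := mul_le_mul_of_nonneg_left f4 p0
    have f6 := mul_le_mul_of_nonneg_right f3 (by linarith : 0 ≤ x)
    have f7 := mul_le_mul_of_nonneg_left x1 B0
    have f8 : x * x ≤ r * r := mul_self_le_mul_self (by linarith) x1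
    have f9 := sq_nonneg (x - j)
    have : (l : ℝ) ≤ p * A + j * j := by nlinarith
    exact_mod_cast this
  · have k8 : (0 : ℝ) < L := by exact_mod_cast (show 0 < L by omega)
    have k9 : (0 : ℝ) < (B + ρ + j * B : ℕ) := by exact_mod_cast (show 0 < B + ρ + j * B by omega)
    have k10 : ((B + ρ + j * B : ℕ) : ℝ) * k ≤ (B : ℝ) * L := by
      exact_mod_cast (by omega : (B + ρ + j * B) * k ≤ B * L)
    rw [Nat.cast_succ L, add_sub_cancel_right, div_lt_div_iff₀ k8 k9]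
    linarith

theorem gaps_one (k l l' : ℕ) (hk : 1 ≤ k) (h1 : k ≤ l) (h2 : 4 * l' ≤ k ^ 2)
    (h3 : (l : ℝ) + 4 * Real.sqrt l' + ((l' : ℝ) / k) ^ 2 ≤ l') :
    ∀ᶠ n : ℕ in atTop, minExtremalNumber n k l < minExtremalNumber n k l' := by
  obtain ⟨B, ρ, j, p, g1, g2, g3, g4, g5, g6, g7⟩ := choose_one k l l' hk h1 h2 h3
  obtain ⟨C, hC⟩ := ratios2 B ρ j p k l g1 g2 g3 g4
  filter_upwards [lower k l' g5 g6 _ C g7, eventually_ge_atTop k] with n hn hkn
  obtain ⟨x, hx1, hx2⟩ := hC n hkn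
  have : ((x + 1 : ℕ) : ℕ∞) ≤ minExtremalNumber n k l' := by
    refine le_iInf₂ fun F hF => ?_
    have : (x : ℝ) < SimpleGraph.extremalNumber n F := hx2.trans_lt (hn F hF)
    have : x < SimpleGraph.extremalNumber n F := by exact_mod_cast this
    exact_mod_cast this
  refine hx1.trans_lt (lt_of_lt_of_le ?_ this)
  exact_mod_cast Nat.lt_succ_self x

theorem whole (k l l' i : ℕ) (hk : 1 ≤ k) (h1 : k ≤ l) (h2 : l' + i = k ^ 2 / 4)
    (h3 : (l : ℝ) + min (4 * Real.sqrt l' + ((l' : ℝ) / k) ^ 2)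
      (if 2 * i < k then (i : ℝ) + 1 else (i : ℝ) * l' / (l' + i) + k / 2) ≤ l') :
    ∀ᶠ n : ℕ in atTop, minExtremalNumber n k l < minExtremalNumber n k l' := by
  rcases min_choice (4 * Real.sqrt l' + ((l' : ℝ) / k) ^ 2)
    (if 2 * i < k then (i : ℝ) + 1 else (i : ℝ) * l' / (l' + i) + k / 2) with h | h <;>
    rw [h] at h3
  · exact gaps_one k l l' hk h1 (by omega) (by linarith)
  · split_ifs at h3 with h4
    · have h5 : l + (i + 1) ≤ l' := by exact_mod_cast h3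
      exact top k l l' i (by omega) (by omega) h2 (.inl ⟨h4, by omega⟩)
    · have h5 : l ≤ l' := by
        have : (0 : ℝ) ≤ (i : ℝ) * l' / (l' + i) + k / 2 := by positivity
        have : (l : ℝ) ≤ l' := by linarith
        exact_mod_cast this
      refine top k l l' i (by omega) h5 h2 (.inr ?_)
      have h6 : (0 : ℝ) < l' + i := by exact_mod_cast (by omega : 0 < l' + i)
      have h7 := mul_le_mul_of_nonneg_right h3 h6.le
      rw [add_mul, add_mul, div_mul_cancel₀ _ h6.ne'] at h7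
      have : (2 * (l : ℝ) + k) * (l' + i) ≤ 2 * l' ^ 2 := by linarith
      exact_mod_cast this

end Pool.Agent.Work.MP_054302_co.Z
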